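import Pool.Agent.H30.ChB

set_option autoImplicit false

namespace Pool.Agent.Results.MP_c26d8e_gt.CH

/-- Under CH the statement of the problem fails. -/
theorem result (h : (Cardinal.continuum : Cardinal.{0}) = Cardinal.aleph 1) :
    ¬ ∀ (X : Type) [TopologicalSpace X] [T35Space X],
      (∀ n : ℕ, HereditarilyLindelofSpace (Fin n → X)) →
        ∃ Z : Set (X → ℝ), {f : X → ℝ | Continuous f} ⊆ Z ∧ IsLindelof Z := by
  intro H
  obtain ⟨x, hx⟩ := Pool.Agent.H30.Ch.exists_gen h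
  obtain ⟨X, _, _, h1, h2⟩ := hx.no_lind
  obtain ⟨Z, h3, h4⟩ := H X h1
  exact h2 Z h3 h4

end Pool.Agent.Results.MP_c26d8e_gt.CH
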